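import Mathlib
import Pool.Agent.Run7.h866.NU.Fin

set_option autoImplicit false

/-!
# The SHGH conjecture for arbitrary vectors above and below near-uniform ones

Let `v` be near-uniform on a set `T` of the points: `T` has at least `200` points and `v` takes there
only two values `m`, `m + 1`, `m ≥ 1`; or `T` has `t ≥ 37` points and `v` is close to a constant
`m ≥ (t + 6) / 2` on `T`. The linear system of the plane curves of degree `d` with multiplicities `w` at
general points has the expected dimension in each of the following cases: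
* `w = v` on `T` and `w ≤ 1` at the other points;
* `w ≤ v` on `T`, `w ≤ 1` at the other points and `∑_T (v i + 1).choose 2 ≤ (d + 2).choose 2`;
* `w ≥ v` on `T` and `(d + 2).choose 2 ≤ ∑_T (v i + 1).choose 2` (then it is empty).

Hence for EVERY vector `w` of `n ≥ 200` positive multiplicities with minimum `m` and maximum `M + 1`:
it is nonspecial in all degrees `d` with `(d + 2).choose 2 ≥ a (M + 2).choose 2 + (n - a) (M + 1).choose 2`
or `(d + 2).choose 2 ≤ b (m + 2).choose 2 + (n - b) (m + 1).choose 2`, where `a` is the number of the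
multiplicities `M + 1` and `b` the number of those larger than `m`.
-/

namespace Pool.Agent.Results.MP_6e81d8_ag.ArbitraryVectorsSandwich

open MvPolynomial Pool.Agent.TH167.SHDefs

/-- The cost of a multiplicity `e ≤ m + 1`. -/
def cost (m e : ℕ) : ℕ := if e < m then 4 * (m - e) - 2 else if e = m then 0 else 1

/-- `0, 5, 2, 3` for `t ≡ 0, 1, 2, 3` modulo four. -/
def spare (t : ℕ) : ℕ := if t % 4 = 1 then 5 else t % 4

/-- Near-uniform on the set `T` of points. -/
def NearUniform {n : ℕ} (T : Finset (Fin n)) (v : Fin n → ℕ) : Prop :=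
  (200 ≤ T.card ∧ ∃ m : ℕ, 1 ≤ m ∧ ∀ i ∈ T, v i = m ∨ v i = m + 1) ∨
  (37 ≤ T.card ∧ ∃ m : ℕ, T.card + 6 ≤ 2 * m ∧ (∀ i ∈ T, v i ≤ m + 1) ∧
    (((∑ i ∈ T, cost m (v i) : ℕ) : ℝ) + (spare T.card : ℝ) / 2 + 9 / 8 <
        7 * Real.sqrt T.card / 6 ∨
      ((∑ i ∈ T, cost m (v i) : ℕ) : ℝ) + spare T.card + 2 * Real.sqrt T.card / 3 + 23 / 8 ≤
        (T.card : ℝ) / 4))

/-- The dimension of the linear system of the plane curves of degree `d` with multiplicities at
least `w i` at the points `P i`. -/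
noncomputable def dimension {n : ℕ} (P : Fin n → Fin 2 → ℂ) (d : ℕ) (w : Fin n → ℕ) : ℤ :=
  (Module.finrank ℂ ↥(sys P d w) : ℤ) - 1

/-- The virtual dimension. -/
def vdim {n : ℕ} (d : ℕ) (w : Fin n → ℕ) : ℤ :=
  ((d + 2).choose 2 : ℤ) - 1 - ∑ i, ((w i + 1).choose 2 : ℤ)

/-- The property holds for all `n`-tuples of points outside some hypersurface. -/
def ForGeneral {n : ℕ} (p : (Fin n → Fin 2 → ℂ) → Prop) : Prop :=
  ∃ F : MvPolynomial (Fin n × Fin 2) ℂ, F ≠ 0 ∧ ∀ P : Fin n → Fin 2 → ℂ,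
    eval (fun ij : Fin n × Fin 2 => P ij.1 ij.2) F ≠ 0 → p P

theorem of_ctrl {n d : ℕ} {w : Fin n → ℕ} (h : Pool.Agent.Run7.h866.NU.Ctrl d w) :
    ForGeneral fun P : Fin n → Fin 2 → ℂ => dimension P d w = max (vdim d w) (-1) := by
  obtain ⟨F, hF, hF'⟩ := Pool.Agent.Run7.h866.NU.ctrl_open h
  refine ⟨F.map (algebraMap ℚ ℂ), Pool.Agent.H932R3.map_ne_zero_of hF, fun P hP => ?_⟩
  rw [MvPolynomial.eval_map] at hP
  have h1 : Module.finrank ℂ ↥(sys P d w) =
      Nat.choose (d + 2) 2 - ∑ i, Nat.choose (w i + 1) 2 := hF' (L := ℂ) P hP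
  have h2 : ∑ i, ((w i + 1).choose 2 : ℤ) = ((∑ i, Nat.choose (w i + 1) 2 : ℕ) : ℤ) := by
    push_cast
    rfl
  unfold dimension vdim
  rw [h1, h2]
  omega

theorem near_of {n : ℕ} {T : Finset (Fin n)} {v : Fin n → ℕ} (h : NearUniform T v) :
    Pool.Agent.Run7.h866.NU.NearOn T v := by
  have ec : ∀ m e, cost m e = Pool.Agent.Run7.h866.NU.cst m e := fun _ _ => rfl
  have es : ∀ t, spare t = Pool.Agent.Run7.h866.NU.cc t := fun _ => rfl
  rcases h with ⟨h1, m, hm, h2⟩ | ⟨h1, m, hm, h2, h3⟩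
  · exact Or.inl ⟨h1, m, hm, h2⟩
  · simp only [ec, es] at h3
    exact Or.inr ⟨h1, m, hm, h2, h3⟩

theorem sum_two {n : ℕ} (p : Fin n → Prop) [DecidablePred p] (x y : ℕ) :
    ∑ i, ((if p i then x else y) : ℕ) =
      (Finset.univ.filter p).card * x + (n - (Finset.univ.filter p).card) * y := by
  rw [Finset.sum_ite, Finset.sum_const, Finset.sum_const, smul_eq_mul, smul_eq_mul]
  congr 2
  have h := Finset.card_filter_add_card_filter_not (s := (Finset.univ : Finset (Fin n))) p
  rw [Finset.card_univ, Fintype.card_fin] at h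
  omega

theorem result (n d : ℕ) (w : Fin n → ℕ) :
    (∀ (T : Finset (Fin n)) (v : Fin n → ℕ), NearUniform T v →
      (((∀ i, i ∉ T → w i ≤ 1) ∧ ((∀ i ∈ T, w i = v i) ∨
          ((∀ i ∈ T, w i ≤ v i) ∧ ∑ i ∈ T, (v i + 1).choose 2 ≤ (d + 2).choose 2))) ∨
        ((∀ i ∈ T, v i ≤ w i) ∧ (d + 2).choose 2 ≤ ∑ i ∈ T, (v i + 1).choose 2)) →
      ForGeneral fun P : Fin n → Fin 2 → ℂ => dimension P d w = max (vdim d w) (-1)) ∧
    (200 ≤ n → ∀ M : ℕ, 1 ≤ M → (∀ i, w i ≤ M + 1) →
      (Finset.univ.filter fun i => w i = M + 1).card * (M + 2).choose 2 +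
        (n - (Finset.univ.filter fun i => w i = M + 1).card) * (M + 1).choose 2 ≤
          (d + 2).choose 2 →
      ForGeneral fun P : Fin n → Fin 2 → ℂ => dimension P d w = vdim d w) ∧
    (200 ≤ n → ∀ m : ℕ, 1 ≤ m → (∀ i, m ≤ w i) →
      (d + 2).choose 2 ≤ (Finset.univ.filter fun i => m < w i).card * (m + 2).choose 2 +
        (n - (Finset.univ.filter fun i => m < w i).card) * (m + 1).choose 2 →
      ForGeneral fun P : Fin n → Fin 2 → ℂ => dimension P d w = -1) := by
  classical
  have main : ∀ (T : Finset (Fin n)) (v : Fin n → ℕ), NearUniform T v →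
      (((∀ i, i ∉ T → w i ≤ 1) ∧ ((∀ i ∈ T, w i = v i) ∨
          ((∀ i ∈ T, w i ≤ v i) ∧ ∑ i ∈ T, (v i + 1).choose 2 ≤ (d + 2).choose 2))) ∨
        ((∀ i ∈ T, v i ≤ w i) ∧ (d + 2).choose 2 ≤ ∑ i ∈ T, (v i + 1).choose 2)) →
      ForGeneral fun P : Fin n → Fin 2 → ℂ => dimension P d w = max (vdim d w) (-1) :=
    fun T v hT h => of_ctrl (Pool.Agent.Run7.h866.NU.ctrl_of_on (near_of hT) h)
  refine ⟨main, fun hn M hM hw hd => ?_, fun hn m hm hw hd => ?_⟩
  · have e1 : ∑ i, ((if w i = M + 1 then M + 1 else M) + 1).choose 2 ≤ (d + 2).choose 2 := by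
      have e2 : ∀ i, ((if w i = M + 1 then M + 1 else M) + 1).choose 2 =
          if w i = M + 1 then (M + 2).choose 2 else (M + 1).choose 2 := by
        intro i
        split_ifs <;> rfl
      rw [Finset.sum_congr rfl fun i _ => e2 i, sum_two]
      exact hd
    have hle : ∀ i, w i ≤ if w i = M + 1 then M + 1 else M := by
      intro i
      have := hw i
      split_ifs <;> omega
    obtain ⟨F, hF, hF'⟩ := main Finset.univ (fun i => if w i = M + 1 then M + 1 else M)
      (Or.inl ⟨by rw [Finset.card_univ, Fintype.card_fin]; exact hn, M, hM, fun i _ => by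
        show (if w i = M + 1 then M + 1 else M) = M ∨ (if w i = M + 1 then M + 1 else M) = M + 1
        split_ifs
        · exact Or.inr rfl
        · exact Or.inl rfl⟩)
      (Or.inl ⟨fun i hi => absurd (Finset.mem_univ i) hi, Or.inr ⟨fun i _ => hle i, e1⟩⟩)
    refine ⟨F, hF, fun P hP => ?_⟩
    have h1 := hF' P hP
    have h2 : -1 ≤ vdim d w := by
      have h3 : ∑ i, (w i + 1).choose 2 ≤ (d + 2).choose 2 :=
        (Finset.sum_le_sum fun i _ =>
          Nat.choose_le_choose 2 (Nat.add_le_add_right (hle i) 1)).trans e1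
      unfold vdim
      have h4 : ∑ i, ((w i + 1).choose 2 : ℤ) = ((∑ i, Nat.choose (w i + 1) 2 : ℕ) : ℤ) := by
        push_cast
        rfl
      rw [h4]
      omega
    simp only at h1 ⊢
    omega
  · have e1 : (d + 2).choose 2 ≤ ∑ i, ((if m < w i then m + 1 else m) + 1).choose 2 := by
      have e2 : ∀ i, ((if m < w i then m + 1 else m) + 1).choose 2 =
          if m < w i then (m + 2).choose 2 else (m + 1).choose 2 := by
        intro i
        split_ifs <;> rfl
      rw [Finset.sum_congr rfl fun i _ => e2 i, sum_two]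
      exact hd
    have hle : ∀ i, (if m < w i then m + 1 else m) ≤ w i := by
      intro i
      have := hw i
      split_ifs <;> omega
    obtain ⟨F, hF, hF'⟩ := main Finset.univ (fun i => if m < w i then m + 1 else m)
      (Or.inl ⟨by rw [Finset.card_univ, Fintype.card_fin]; exact hn, m, hm, fun i _ => by
        show (if m < w i then m + 1 else m) = m ∨ (if m < w i then m + 1 else m) = m + 1
        split_ifs
        · exact Or.inr rfl
        · exact Or.inl rfl⟩)
      (Or.inr ⟨fun i _ => hle i, e1⟩)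
    refine ⟨F, hF, fun P hP => ?_⟩
    have h1 := hF' P hP
    have h2 : vdim d w ≤ -1 := by
      have h3 : (d + 2).choose 2 ≤ ∑ i, (w i + 1).choose 2 :=
        e1.trans (Finset.sum_le_sum fun i _ =>
          Nat.choose_le_choose 2 (Nat.add_le_add_right (hle i) 1))
      unfold vdim
      have h4 : ∑ i, ((w i + 1).choose 2 : ℤ) = ((∑ i, Nat.choose (w i + 1) 2 : ℕ) : ℤ) := by
        push_cast
        rfl
      rw [h4]
      omega
    simp only at h1 ⊢
    omega

end Pool.Agent.Results.MP_6e81d8_ag.ArbitraryVectorsSandwich
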